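import Pool.Agent.W711.HT.Geo

/-!
Project HT (helper711), part QUAD: the first quadrant.
-/

set_option autoImplicit false

namespace Pool.Agent.W249.HT.Quad

open scoped Real ComplexConjugate

/-! ### elementary inequalities -/

lemma sinh_le_mul_cosh {y : ℝ} (hy : 0 ≤ y) : Real.sinh y ≤ y * Real.cosh y := by
  have h1 : MonotoneOn (fun y : ℝ => y * Real.cosh y - Real.sinh y) (Set.Ici 0) := by
    refine monotoneOn_of_deriv_nonneg (convex_Ici 0) ?_ ?_ ?_
    · fun_prop
    · fun_prop
    · intro x hx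
      rw [interior_Ici] at hx
      have hd : HasDerivAt (fun y : ℝ => y * Real.cosh y - Real.sinh y)
          (1 * Real.cosh x + x * Real.sinh x - Real.cosh x) x :=
        ((hasDerivAt_id x).mul (Real.hasDerivAt_cosh x)).sub (Real.hasDerivAt_sinh x)
      rw [hd.deriv]
      have h2 : 0 ≤ x * Real.sinh x :=
        mul_nonneg (le_of_lt hx) (Real.sinh_nonneg_iff.mpr (le_of_lt hx))
      linarith
  have h2 := h1 (Set.mem_Ici.mpr le_rfl) (Set.mem_Ici.mpr hy) hy
  simp at h2
  exact h2

lemma mul_cos_le_sin {x : ℝ} (h0 : 0 < x) (h1 : x ≤ π / 2) : x * Real.cos x ≤ Real.sin x := by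
  rcases eq_or_lt_of_le h1 with h | h
  · rw [h]; simp
  · have hc : 0 < Real.cos x := Real.cos_pos_of_mem_Ioo ⟨by linarith, h⟩
    have ht := Real.lt_tan h0 h
    rw [Real.tan_eq_sin_div_cos, lt_div_iff₀ hc] at ht
    exact ht.le

/-- `k sin r cos (k r) < cos r sin (k r)` -/
lemma trig (r : ℝ) (hr : 0 < r) : ∀ k : ℕ, 2 ≤ k → (k : ℝ) * r ≤ π / 2 →
    k * Real.sin r * Real.cos (k * r) < Real.cos r * Real.sin (k * r) := by
  intro k hk
  induction k, hk using Nat.le_induction with
  | base =>
    intro h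
    push_cast at h ⊢
    have hs : 0 < Real.sin r := Real.sin_pos_of_pos_of_lt_pi hr (by linarith [Real.pi_pos])
    rw [Real.sin_two_mul, Real.cos_two_mul]
    have hc : Real.cos r ^ 2 < 1 := by
      have := Real.sin_sq_add_cos_sq r
      nlinarith
    nlinarith
  | succ k hk ih =>
    intro h
    push_cast at h ⊢
    have hk0 : (0 : ℝ) < k := by
      have : 0 < k := by omega
      exact_mod_cast this
    have h2 : (k : ℝ) * r ≤ π / 2 := by nlinarith
    have ih' := ih h2
    have hrr : r < π / 2 := by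
      have h3 : (2 : ℝ) ≤ k := by exact_mod_cast hk
      nlinarith
    have hs : 0 < Real.sin r := Real.sin_pos_of_pos_of_lt_pi hr (by linarith [Real.pi_pos])
    have hc : 0 < Real.cos r := Real.cos_pos_of_mem_Ioo ⟨by linarith, hrr⟩
    have hsk : 0 < Real.sin (k * r) :=
      Real.sin_pos_of_pos_of_lt_pi (mul_pos hk0 hr) (by linarith [Real.pi_pos])
    have e : ((k : ℝ) + 1) * r = k * r + r := by ring
    rw [e, Real.sin_add, Real.cos_add]
    have h3 : 0 < Real.cos r * (Real.cos r * Real.sin (k * r)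
        - k * Real.sin r * Real.cos (k * r)) := mul_pos hc (by linarith)
    have h4 : 0 < ((k : ℝ) + 1) * Real.sin r ^ 2 * Real.sin (k * r) := by positivity
    nlinarith

/-- `sinh (k y) cosh y ≤ k sinh y cosh (k y)` -/
lemma hyp (y : ℝ) (hy : 0 ≤ y) : ∀ k : ℕ, 1 ≤ k →
    Real.sinh (k * y) * Real.cosh y ≤ k * Real.sinh y * Real.cosh (k * y) := by
  intro k hk
  induction k, hk using Nat.le_induction with
  | base => simp
  | succ k hk ih =>
    push_cast
    have e : ((k : ℝ) + 1) * y = k * y + y := by ring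
    rw [e, Real.sinh_add, Real.cosh_add]
    have hs : 0 ≤ Real.sinh y := Real.sinh_nonneg_iff.mpr hy
    have hsk : 0 ≤ Real.sinh (k * y) := Real.sinh_nonneg_iff.mpr (by positivity)
    have hc : 0 < Real.cosh y := Real.cosh_pos y
    have h3 : 0 ≤ Real.cosh y * (k * Real.sinh y * Real.cosh (k * y)
        - Real.sinh (k * y) * Real.cosh y) := mul_nonneg hc.le (by linarith)
    have h4 : 0 ≤ ((k : ℝ) + 1) * Real.sinh y ^ 2 * Real.sinh (k * y) := by positivity
    nlinarith

/-! ### the two inequalities -/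

/-- the real part -/
lemma re_part {X Y r η : ℝ} (hX : 0 < X) (hX2 : X ≤ π / 2) (hr : 0 < r) (hr2 : r < π / 2)
    (hη : 0 < η) (h : Y * η < X * r) :
    Real.cos X * Real.sinh Y * (Real.cos r * Real.sinh η)
      < Real.sin X * Real.cosh Y * (Real.sin r * Real.cosh η) := by
  have hsX : 0 < Real.sin X := Real.sin_pos_of_pos_of_lt_pi hX (by linarith [Real.pi_pos])
  have hsr : 0 < Real.sin r := Real.sin_pos_of_pos_of_lt_pi hr (by linarith [Real.pi_pos])
  have hcX : 0 ≤ Real.cos X := Real.cos_nonneg_of_mem_Icc ⟨by linarith, hX2⟩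
  have hcr : 0 < Real.cos r := Real.cos_pos_of_mem_Ioo ⟨by linarith, hr2⟩
  have hchY : 0 < Real.cosh Y := Real.cosh_pos Y
  have hchη : 0 < Real.cosh η := Real.cosh_pos η
  have hshη : 0 < Real.sinh η := Real.sinh_pos_iff.mpr hη
  have hR : 0 < Real.sin X * Real.cosh Y * (Real.sin r * Real.cosh η) := by positivity
  rcases le_or_gt Y 0 with hY | hY
  · have hshY : Real.sinh Y ≤ 0 := Real.sinh_nonpos_iff.mpr hY
    have : Real.cos X * Real.sinh Y * (Real.cos r * Real.sinh η) ≤ 0 :=
      mul_nonpos_of_nonpos_of_nonneg (mul_nonpos_of_nonneg_of_nonpos hcX hshY) (by positivity)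
    linarith
  · have h1 := mul_cos_le_sin hX hX2
    have h2 := mul_cos_le_sin hr hr2.le
    have h3 := sinh_le_mul_cosh hY.le
    have h4 := sinh_le_mul_cosh hη.le
    have hshY : 0 < Real.sinh Y := Real.sinh_pos_iff.mpr hY
    have h5 : (X * Real.cos X) * Real.sinh Y ≤ Real.sin X * (Y * Real.cosh Y) :=
      mul_le_mul h1 h3 hshY.le hsX.le
    have h6 : (r * Real.cos r) * Real.sinh η ≤ Real.sin r * (η * Real.cosh η) :=
      mul_le_mul h2 h4 hshη.le hsr.le
    have h7 : ((X * Real.cos X) * Real.sinh Y) * ((r * Real.cos r) * Real.sinh η)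
        ≤ (Real.sin X * (Y * Real.cosh Y)) * (Real.sin r * (η * Real.cosh η)) :=
      mul_le_mul h5 h6 (by positivity) (by positivity)
    have h8 : (Y * η) * (Real.sin X * Real.cosh Y * (Real.sin r * Real.cosh η))
        < (X * r) * (Real.sin X * Real.cosh Y * (Real.sin r * Real.cosh η)) :=
      mul_lt_mul_of_pos_right h hR
    have hXr : 0 < X * r := mul_pos hX hr
    have h9 : (X * r) * (Real.cos X * Real.sinh Y * (Real.cos r * Real.sinh η))
        < (X * r) * (Real.sin X * Real.cosh Y * (Real.sin r * Real.cosh η)) := by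
      nlinarith
    exact lt_of_mul_lt_mul_left h9 hXr.le

/-- the imaginary part, `Y ≥ 0` -/
lemma im_part_nonneg {X Y r η : ℝ} (hX : 0 < X) (hX2 : X ≤ π / 2) (hr : 0 < r) (hr2 : r < π / 2)
    (hη : 0 < η) (h : 0 ≤ Y) :
    0 < Real.cos X * Real.sinh Y * (Real.sin r * Real.cosh η)
      + Real.sin X * Real.cosh Y * (Real.cos r * Real.sinh η) := by
  have hsX : 0 < Real.sin X := Real.sin_pos_of_pos_of_lt_pi hX (by linarith [Real.pi_pos])
  have hsr : 0 < Real.sin r := Real.sin_pos_of_pos_of_lt_pi hr (by linarith [Real.pi_pos])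
  have hcX : 0 ≤ Real.cos X := Real.cos_nonneg_of_mem_Icc ⟨by linarith, hX2⟩
  have hcr : 0 < Real.cos r := Real.cos_pos_of_mem_Ioo ⟨by linarith, hr2⟩
  have hchY : 0 < Real.cosh Y := Real.cosh_pos Y
  have hchη : 0 < Real.cosh η := Real.cosh_pos η
  have hshη : 0 < Real.sinh η := Real.sinh_pos_iff.mpr hη
  have hshY : 0 ≤ Real.sinh Y := Real.sinh_nonneg_iff.mpr h
  positivity

/-- the imaginary part, `l = 0` -/
lemma im_part_zero {r η : ℝ} {k : ℕ} (hk : 2 ≤ k) (hX2 : k * r ≤ π / 2) (hr : 0 < r)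
    (hr2 : r < π / 2) (hη : 0 < η) :
    0 < Real.cos (k * r) * Real.sinh (-(k * η)) * (Real.sin r * Real.cosh η)
      + Real.sin (k * r) * Real.cosh (-(k * η)) * (Real.cos r * Real.sinh η) := by
  have hk0 : (0 : ℝ) < k := by
    have : 0 < k := by omega
    exact_mod_cast this
  have hX : 0 < k * r := mul_pos hk0 hr
  have hsr : 0 < Real.sin r := Real.sin_pos_of_pos_of_lt_pi hr (by linarith [Real.pi_pos])
  have hcX : 0 ≤ Real.cos (k * r) := Real.cos_nonneg_of_mem_Icc ⟨by linarith, hX2⟩
  have hshη : 0 < Real.sinh η := Real.sinh_pos_iff.mpr hη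
  have h1 := trig r hr k hk hX2
  have h2 := hyp η hη.le k (by omega)
  have hch : 0 < Real.cosh (k * η) := Real.cosh_pos _
  rw [Real.sinh_neg, Real.cosh_neg]
  have h3 : Real.cos (k * r) * Real.sin r * (Real.sinh (k * η) * Real.cosh η)
      ≤ Real.cos (k * r) * Real.sin r * (k * Real.sinh η * Real.cosh (k * η)) :=
    mul_le_mul_of_nonneg_left h2 (mul_nonneg hcX hsr.le)
  have h4 : k * Real.sin r * Real.cos (k * r) * (Real.sinh η * Real.cosh (k * η))
      < Real.cos r * Real.sin (k * r) * (Real.sinh η * Real.cosh (k * η)) :=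
    mul_lt_mul_of_pos_right h1 (mul_pos hshη hch)
  nlinarith

/-- the imaginary part near the middle -/
lemma im_part_mid {X Y r η a s : ℝ} (ha : 9 ≤ a) (hs : 9 / 5 ≤ s) (hr : 0 < r)
    (hr3 : r ≤ π / 3) (hη : 0 < η) (hη1 : η ≤ 1) (h1 : r * a + η * s = π) (h2 : η * a = r * s)
    (hX2 : X ≤ π / 2) (hX3 : π / 2 - X ≤ π / (10 * s)) (hY : Y < 0)
    (hY2 : -Y ≤ π / (10 * a)) :
    0 < Real.cos X * Real.sinh Y * (Real.sin r * Real.cosh η)
      + Real.sin X * Real.cosh Y * (Real.cos r * Real.sinh η) := by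
  have hpi : π < 3.15 := Real.pi_lt_d2
  have hpi0 := Real.pi_pos
  have ha0 : 0 < a := by linarith
  have hs0 : 0 < s := by linarith
  have hX3' : π / 2 - X ≤ 9 / 50 := by
    refine hX3.trans ?_
    rw [div_le_iff₀ (by positivity)]
    nlinarith
  have hcX : Real.cos X ≤ 9 / 50 := by
    rw [← Real.sin_pi_div_two_sub]
    exact (Real.sin_le (by linarith)).trans hX3'
  have hcX0 : 0 ≤ Real.cos X :=
    Real.cos_nonneg_of_mem_Icc ⟨by linarith [Real.pi_gt_three], hX2⟩
  have hsX : 1 / 2 ≤ Real.sin X := by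
    rw [← Real.cos_pi_div_two_sub]
    have h3 := Real.one_sub_sq_div_two_le_cos (x := π / 2 - X)
    nlinarith
  have hcr : 1 / 2 ≤ Real.cos r := by
    rw [← Real.cos_pi_div_three]
    exact Real.cos_le_cos_of_nonneg_of_le_pi hr.le (by linarith) hr3
  have hsr0 : 0 < Real.sin r := Real.sin_pos_of_pos_of_lt_pi hr (by linarith)
  have hsr : Real.sin r ≤ r := Real.sin_le hr.le
  have hshη : η ≤ Real.sinh η := Real.self_le_sinh_iff.mpr hη.le
  have hchη : Real.cosh η ≤ 2 := by
    have h3 : Real.exp η ≤ Real.exp 1 := Real.exp_le_exp.mpr hη1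
    have h4 : Real.exp (-η) ≤ 1 := Real.exp_le_one_iff.mpr (by linarith)
    have h5 := Real.exp_one_lt_d9
    rw [Real.cosh_eq]
    linarith
  have hchη0 : 0 < Real.cosh η := Real.cosh_pos η
  have hchY : 0 < Real.cosh Y := Real.cosh_pos Y
  have hshY : -Real.sinh Y ≤ π / (10 * a) * Real.cosh Y := by
    have h3 := sinh_le_mul_cosh (y := -Y) (by linarith)
    rw [Real.sinh_neg, Real.cosh_neg] at h3
    exact h3.trans (mul_le_mul_of_nonneg_right hY2 hchY.le)
  have hshY0 : 0 ≤ -Real.sinh Y := by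
    have := Real.sinh_nonpos_iff.mpr hY.le
    linarith
  -- upper bound of the first term
  have h5 : Real.cos X * (-Real.sinh Y) ≤ 9 / 50 * (π / (10 * a) * Real.cosh Y) :=
    mul_le_mul hcX hshY hshY0 (by norm_num)
  have h6 : Real.sin r * Real.cosh η ≤ r * 2 :=
    mul_le_mul hsr hchη hchη0.le hr.le
  have h7 : Real.cos X * (-Real.sinh Y) * (Real.sin r * Real.cosh η)
      ≤ 9 / 50 * (π / (10 * a) * Real.cosh Y) * (r * 2) :=
    mul_le_mul h5 h6 (by positivity) (by positivity)
  -- lower bound of the second term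
  have hηr : η = r * s / a := by
    rw [eq_div_iff ha0.ne']; exact h2
  have h8 : 1 / 2 * (r * s / a) ≤ Real.cos r * Real.sinh η := by
    rw [← hηr]
    exact mul_le_mul hcr hshη hη.le (by linarith)
  have h9 : 1 / 2 * Real.cosh Y ≤ Real.sin X * Real.cosh Y :=
    mul_le_mul_of_nonneg_right hsX hchY.le
  have h10 : 1 / 2 * Real.cosh Y * (1 / 2 * (r * s / a))
      ≤ Real.sin X * Real.cosh Y * (Real.cos r * Real.sinh η) :=
    mul_le_mul h9 h8 (by positivity) (by positivity)
  have h11 : 9 / 50 * (π / (10 * a) * Real.cosh Y) * (r * 2)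
      < 1 / 2 * Real.cosh Y * (1 / 2 * (r * s / a)) := by
    have e1 : 9 / 50 * (π / (10 * a) * Real.cosh Y) * (r * 2)
        = (9 / 250 * π) * (Real.cosh Y * r / a) := by
      field_simp
      ring
    have e2 : 1 / 2 * Real.cosh Y * (1 / 2 * (r * s / a)) = (s / 4) * (Real.cosh Y * r / a) := by
      ring
    rw [e1, e2]
    refine mul_lt_mul_of_pos_right ?_ (by positivity)
    nlinarith
  nlinarith

/-! ### complex form -/

lemma re_mk (x y : ℝ) : ((x : ℂ) + (y : ℂ) * Complex.I).re = x := by simp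

lemma im_mk (x y : ℝ) : ((x : ℂ) + (y : ℂ) * Complex.I).im = y := by simp

lemma re_im_bounds {l : ℂ} (h : ‖l - 1‖ ≤ 1 / 10) :
    9 / 10 ≤ l.re ∧ l.re ≤ 11 / 10 ∧ -(1 / 10) ≤ l.im ∧ l.im ≤ 1 / 10 := by
  have h1 := (Complex.abs_re_le_norm (l - 1)).trans h
  have h2 := (Complex.abs_im_le_norm (l - 1)).trans h
  rw [Complex.sub_re, Complex.one_re, abs_le] at h1
  rw [Complex.sub_im, Complex.one_im, sub_zero, abs_le] at h2
  exact ⟨by linarith [h1.1], by linarith [h1.2], h2.1, h2.2⟩

/-- the half `Re θ ≤ π / 2` -/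
lemma half (a : ℕ) (l m : ℂ) (ha : 10 ≤ a) (hl : l = 0 ∨ ‖l - 1‖ ≤ 1 / 10)
    (hm : m = 0 ∨ ‖m - 1‖ ≤ 1 / 10) (hlm : l ≠ 0 ∨ m ≠ 0) (k : ℕ) (hk : 1 ≤ k) (hka : k < a)
    (hk1 : l = 0 → k ≠ 1)
    (hX2 : (π / (a + Complex.I * (l + m)) * (k + Complex.I * l)).re ≤ π / 2) :
    0 < (Complex.sin (π / (a + Complex.I * (l + m)) * (k + Complex.I * l)) /
      Complex.sin (π / (a + Complex.I * (l + m)))).re ∧
    0 < (Complex.sin (π / (a + Complex.I * (l + m)) * (k + Complex.I * l)) /
      Complex.sin (π / (a + Complex.I * (l + m)))).im := by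
  have hpi0 := Real.pi_pos
  have haR : (10 : ℝ) ≤ a := by exact_mod_cast ha
  have hkR : (1 : ℝ) ≤ k := by exact_mod_cast hk
  have hkaR : (k : ℝ) + 1 ≤ a := by exact_mod_cast hka
  -- bounds
  have hl' : 0 ≤ l.re ∧ l.re ≤ 11 / 10 ∧ -(1 / 10) ≤ l.im ∧ l.im ≤ 1 / 10 := by
    rcases hl with rfl | h
    · norm_num
    · obtain ⟨h1, h2, h3, h4⟩ := re_im_bounds h
      exact ⟨by linarith, h2, h3, h4⟩
  have hm' : 0 ≤ m.re ∧ m.re ≤ 11 / 10 ∧ -(1 / 10) ≤ m.im ∧ m.im ≤ 1 / 10 := by
    rcases hm with rfl | h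
    · norm_num
    · obtain ⟨h1, h2, h3, h4⟩ := re_im_bounds h
      exact ⟨by linarith, h2, h3, h4⟩
  have hs9 : 9 / 10 ≤ l.re + m.re := by
    rcases hlm with h | h
    · have h1 := (re_im_bounds (hl.resolve_left h)).1
      linarith [hm'.1]
    · have h1 := (re_im_bounds (hm.resolve_left h)).1
      linarith [hl'.1]
  obtain ⟨hl1, hl2, hl3, hl4⟩ := hl'
  obtain ⟨hm1, hm2, hm3, hm4⟩ := hm'
  set R : ℂ := π / (a + Complex.I * (l + m)) with hR
  set θ : ℂ := R * (k + Complex.I * l) with hθ
  set a' : ℝ := a - l.im - m.im with ha'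
  set s : ℝ := l.re + m.re with hs
  set N : ℝ := a' ^ 2 + s ^ 2 with hN
  have ha9 : 98 / 10 ≤ a' := by rw [ha']; linarith
  have hs0 : 0 < s := by linarith
  have hN0 : 0 < N := by rw [hN]; positivity
  set r : ℝ := π * a' / N with hr
  set η : ℝ := π * s / N with hη
  have hr0 : 0 < r := by
    rw [hr]
    have : 0 < a' := by linarith
    positivity
  have hη0 : 0 < η := by rw [hη]; positivity
  have h1 : r * a' + η * s = π := by
    rw [hr, hη]
    field_simp
    rw [hN]
  have h2 : η * a' = r * s := by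
    rw [hr, hη]
    ring
  have hAre : ((a : ℂ) + Complex.I * (l + m)).re = a' := by
    simp [ha']; ring
  have hAim : ((a : ℂ) + Complex.I * (l + m)).im = s := by
    simp [hs]
  have hNs : Complex.normSq ((a : ℂ) + Complex.I * (l + m)) = N := by
    rw [Complex.normSq_apply, hAre, hAim, hN]; ring
  have hRre : R.re = r := by
    rw [hR, Complex.div_re, hAre, hNs]
    simp [hr]
  have hRim : R.im = -η := by
    rw [hR, Complex.div_im, hAim, hNs]
    simp [hη]
  have hkre : ((k : ℂ) + Complex.I * l).re = k - l.im := by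
    simp; ring
  have hkim : ((k : ℂ) + Complex.I * l).im = l.re := by
    simp
  have hθre : θ.re = r * (k - l.im) + η * l.re := by
    rw [hθ, Complex.mul_re, hRre, hRim, hkre, hkim]
    ring
  have hθim : θ.im = r * l.re - η * (k - l.im) := by
    rw [hθ, Complex.mul_im, hRre, hRim, hkre, hkim]
    ring
  set X : ℝ := θ.re with hXd
  set Y : ℝ := θ.im with hYd
  have hX0 : 0 < X := by
    rw [hθre]
    have : 0 < (k : ℝ) - l.im := by linarith
    positivity
  have hra : r * a' ≤ π := by
    have := mul_pos hη0 hs0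
    linarith
  have hr9 : r * (98 / 10) ≤ π := (mul_le_mul_of_nonneg_left ha9 hr0.le).trans hra
  have hr3 : r ≤ π / 3 := by linarith
  have hr2 : r < π / 2 := by linarith
  have hη1 : η ≤ 1 := by
    have hpi : π < 3.15 := Real.pi_lt_d2
    have h4 : η * a' ≤ r * (22 / 10) := by
      rw [h2]
      exact mul_le_mul_of_nonneg_left (by rw [hs]; linarith) hr0.le
    have h5 : η * (98 / 10) ≤ η * a' := mul_le_mul_of_nonneg_left ha9 hη0.le
    linarith
  have hYX : Y * η < X * r := by
    have h3 : 0 < (k : ℝ) - l.im := by linarith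
    have h4 : X * r - Y * η = (r ^ 2 + η ^ 2) * (k - l.im) := by
      rw [hθre, hθim]
      ring
    have h5 : 0 < (r ^ 2 + η ^ 2) * (k - l.im) := by positivity
    linarith
  have hRe := re_part hX0 hX2 hr0 hr2 hη0 hYX
  have hIm : 0 < Real.cos X * Real.sinh Y * (Real.sin r * Real.cosh η)
      + Real.sin X * Real.cosh Y * (Real.cos r * Real.sinh η) := by
    rcases le_or_gt 0 Y with hY | hY
    · exact im_part_nonneg hX0 hX2 hr0 hr2 hη0 hY
    · by_cases hl0 : l = 0
      · have e1 : X = k * r := by rw [hθre, hl0]; simp; ring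
        have e2 : Y = -(k * η) := by rw [hθim, hl0]; simp; ring
        rw [e1, e2]
        rw [e1] at hX2
        have hk2 : 2 ≤ k := by
          have := hk1 hl0
          omega
        exact im_part_zero hk2 hX2 hr0 hr2 hη0
      · have hl5 := re_im_bounds (hl.resolve_left hl0)
        by_cases hm0 : m = 0
        · exfalso
          have e1 : s = l.re := by rw [hs, hm0]; simp
          have e2 : a' = a - l.im := by rw [ha', hm0]; simp
          have e3 : Y * a' = r * l.re * (a - k) := by
            rw [hθim]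
            have : (r * l.re - η * (k - l.im)) * a' = r * l.re * a' - (η * a') * (k - l.im) := by
              ring
            rw [this, h2, e1, e2]
            ring
          have h3 : 0 < r * l.re * (a - k) := by
            have h4 : 0 < (a : ℝ) - k := by linarith
            have h5 : 0 < l.re := by linarith [hl5.1]
            positivity
          have h6 : Y * a' < 0 := mul_neg_of_neg_of_pos hY (by linarith)
          linarith
        · have hm5 := re_im_bounds (hm.resolve_left hm0)
          have hs18 : 9 / 5 ≤ s := by rw [hs]; linarith [hl5.1, hm5.1]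
          -- the identity
          have e1 : (π / 2 - X) * η + (-Y) * r = -((η ^ 2 + r ^ 2) * ((l.re - m.re) / 2)) := by
            rw [hθre, hθim, ← h1]
            have e2 : η * s = η * (l.re + m.re) := by rw [hs]
            have e3 : r * a' = r * (a - l.im - m.im) := by rw [ha']
            have e4 : η * (a - l.im - m.im) = r * (l.re + m.re) := by
              rw [← ha', ← hs]; exact h2
            rw [e2, e3]
            linear_combination (r / 2) * e4
          have e5 : (η ^ 2 + r ^ 2) * N = π ^ 2 := by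
            have e7 : (η ^ 2 + r ^ 2) * N = (r * a' + η * s) ^ 2 + (η * a' - r * s) ^ 2 := by
              rw [hN]; ring
            rw [e7, h1, h2]; ring
          have hv : -((η ^ 2 + r ^ 2) * ((l.re - m.re) / 2)) ≤ (η ^ 2 + r ^ 2) * (1 / 10) := by
            have h3 : 0 < η ^ 2 + r ^ 2 := by positivity
            have h4 : -((l.re - m.re) / 2) ≤ 1 / 10 := by linarith [hl5.1, hm5.2.1]
            have h5 := mul_le_mul_of_nonneg_left h4 h3.le
            linarith
          have e6 : η ^ 2 + r ^ 2 = π ^ 2 / N := by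
            rw [eq_div_iff hN0.ne']; exact e5
          have hsum : (π / 2 - X) * η + (-Y) * r ≤ π ^ 2 / N * (1 / 10) := by
            rw [e1, ← e6]; exact hv
          have hX3 : π / 2 - X ≤ π / (10 * s) := by
            have h3 : (π / 2 - X) * η ≤ π ^ 2 / N * (1 / 10) := by
              have : 0 ≤ (-Y) * r := mul_nonneg (by linarith) hr0.le
              linarith
            have h4 : π ^ 2 / N * (1 / 10) = π / (10 * s) * η := by
              rw [hη]; field_simp
            rw [h4] at h3
            exact le_of_mul_le_mul_right h3 hη0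
          have hY2 : -Y ≤ π / (10 * a') := by
            have h3 : (-Y) * r ≤ π ^ 2 / N * (1 / 10) := by
              have : 0 ≤ (π / 2 - X) * η := mul_nonneg (by linarith) hη0.le
              linarith
            have ha0 : 0 < a' := by linarith
            have h4 : π ^ 2 / N * (1 / 10) = π / (10 * a') * r := by
              rw [hr]; field_simp
            rw [h4] at h3
            exact le_of_mul_le_mul_right h3 hr0
          exact im_part_mid (by linarith) hs18 hr0 hr3 hη0 hη1 h1 h2 hX2 hX3 hY hY2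
  -- assemble
  have hsinR : Complex.sin R = ((Real.sin r * Real.cosh η : ℝ) : ℂ)
      + ((-(Real.cos r * Real.sinh η) : ℝ) : ℂ) * Complex.I := by
    rw [Complex.sin_eq, hRre, hRim]
    push_cast
    rw [Complex.cosh_neg, Complex.sinh_neg]
    ring
  have hsinθ : Complex.sin θ = ((Real.sin X * Real.cosh Y : ℝ) : ℂ)
      + ((Real.cos X * Real.sinh Y : ℝ) : ℂ) * Complex.I := by
    rw [Complex.sin_eq, ← hXd, ← hYd]
    push_cast
    ring
  have c1 : (Complex.sin R).re = Real.sin r * Real.cosh η := by rw [hsinR, re_mk]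
  have c2 : (Complex.sin R).im = -(Real.cos r * Real.sinh η) := by rw [hsinR, im_mk]
  have c3 : (Complex.sin θ).re = Real.sin X * Real.cosh Y := by rw [hsinθ, re_mk]
  have c4 : (Complex.sin θ).im = Real.cos X * Real.sinh Y := by rw [hsinθ, im_mk]
  have hne : 0 < Complex.normSq (Complex.sin R) := by
    rw [Complex.normSq_pos]
    intro h0
    have h3 : (Complex.sin R).re = 0 := by rw [h0]; simp
    rw [c1] at h3
    have hsr : 0 < Real.sin r := Real.sin_pos_of_pos_of_lt_pi hr0 (by linarith)
    have hch : 0 < Real.cosh η := Real.cosh_pos η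
    exact (mul_pos hsr hch).ne' h3
  constructor
  · rw [Complex.div_re, ← add_div, c1, c2, c3, c4]
    refine div_pos ?_ hne
    linarith
  · rw [Complex.div_im, ← sub_div, c1, c2, c3, c4]
    refine div_pos ?_ hne
    linarith

theorem main : Pool.Agent.W711.HT.S_QUAD := by
  intro a l m ha hl hm hlm k hk hka hk1 hk2
  rcases le_or_gt (π / (a + Complex.I * (l + m)) * (k + Complex.I * l)).re (π / 2) with h | h
  · exact half a l m ha hl hm hlm k hk hka hk1 h
  · -- symmetry
    have haR : (10 : ℝ) ≤ a := by exact_mod_cast ha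
    have hA : ((a : ℂ) + Complex.I * (l + m)) ≠ 0 := by
      intro h0
      have h3 := congrArg Complex.re h0
      simp at h3
      have hl' : -(1 / 10) ≤ l.im ∧ l.im ≤ 1 / 10 := by
        rcases hl with rfl | h
        · norm_num
        · obtain ⟨-, -, h3, h4⟩ := re_im_bounds h
          exact ⟨h3, h4⟩
      have hm' : -(1 / 10) ≤ m.im ∧ m.im ≤ 1 / 10 := by
        rcases hm with rfl | h
        · norm_num
        · obtain ⟨-, -, h3, h4⟩ := re_im_bounds h
          exact ⟨h3, h4⟩
      linarith [hl'.1, hl'.2, hm'.1, hm'.2]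
    have hcast : ((a - k : ℕ) : ℂ) = a - k := by
      push_cast [Nat.cast_sub hka.le]; ring
    have e1 : π / (a + Complex.I * (m + l)) * ((a - k : ℕ) + Complex.I * m)
        = π - π / (a + Complex.I * (l + m)) * (k + Complex.I * l) := by
      rw [hcast, add_comm m l]
      field_simp
      ring
    have e2 : ((a : ℂ) + Complex.I * (m + l)) = a + Complex.I * (l + m) := by
      rw [add_comm m l]
    have key := half a m l ha hm hl hlm.symm (a - k) (by omega) (by omega)
      (fun h0 h1 => hk2 h0 (by omega)) (by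
        rw [e1, Complex.sub_re, Complex.ofReal_re]
        linarith)
    rw [e1, e2, Complex.sin_pi_sub] at key
    exact key

end Pool.Agent.W249.HT.Quad

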